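import Pool.Agent.FHQ.StmtsG

/-! Squad FHQ, row BOS (helper97). -/

open scoped BigOperators

noncomputable section

namespace Pool.Agent.FHQ.H97

open scoped Classical in
theorem bos (hAVG : AvgStmt) : BosStmt := by
  intro p _ K _ A N m M b P Q S hP hS
  set f : K → ℕ := fun y => {k : Fin b | y ∈ (Q k).set A}.ncard with hf
  have hfb : ∀ y, f y ≤ b := by
    intro y
    have h := Set.ncard_le_ncard (Set.subset_univ {k : Fin b | y ∈ (Q k).set A}) (Set.toFinite _)
    rw [Set.ncard_univ, Nat.card_eq_fintype_card, Fintype.card_fin] at h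
    exact h
  obtain ⟨y, hy⟩ : ∃ y, ∀ z, f z ≤ f y := by
    refine ⟨Function.argmin (fun y => b - f y), ?_⟩
    intro z
    have h := Function.argmin_le (fun y => b - f y) z
    have h1 := hfb z
    have h2 := hfb (Function.argmin (fun y => b - f y))
    omega
  refine ⟨y, ?_⟩
  have hfin : ∀ (T : Finset (Fin b)) (z : K), (∀ k ∈ T, z ∈ (Q k).set A) → T.card ≤ f y := by
    intro T z hT
    refine le_trans ?_ (hy z)
    rw [← Set.ncard_coe_finset T]
    exact Set.ncard_le_ncard (fun k hk => hT k hk) (Set.toFinite _)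
  set E : Finset ℤ := hP.fin.toFinset with hE
  have hEc : E.card ≤ N := by
    rw [hE, ← Set.ncard_eq_toFinset_card _ hP.fin]
    exact hP.card
  set E' : Finset ℤ := E.filter fun g => (P.rs g).ncard ≤ N with hE'
  set R : ℤ → Finset (ZMod p) := fun g => (Set.toFinite (P.rs g)).toFinset with hR
  set S1 : Finset (Fin b) := S.filter fun k => P.c ∈ (Q k).set A with hS1
  set S2 : ℤ → Finset (Fin b) := fun e => S.filter fun k => (Q k).c ∈ A.ball P.c (e + m) ∧
    p ≤ M * ((Q k).rs (e + m)).ncard with hS2
  set S3 : ℤ → ZMod p → Finset (Fin b) := fun g a => S.filter fun k => ∀ y : K, y ≠ P.c →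
    A.ac (y - P.c) = a → A.v (y - P.c) = g → y ∈ (Q k).set A with hS3
  have hcov : S ⊆ S1 ∪ (E.biUnion S2 ∪ E'.biUnion fun g => (R g).biUnion (S3 g)) := by
    intro k hk
    rw [Finset.mem_union, Finset.mem_union]
    rcases hS k hk with h | ⟨e, he, h1, h2⟩ | ⟨g, hg, hgN, a, ha, h⟩
    · left
      rw [hS1, Finset.mem_filter]
      exact ⟨hk, h⟩
    · right
      left
      rw [Finset.mem_biUnion]
      refine ⟨e, ?_, ?_⟩
      · rw [hE, Set.Finite.mem_toFinset]
        exact he
      · rw [hS2, Finset.mem_filter]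
        exact ⟨hk, h1, h2⟩
    · right
      right
      rw [Finset.mem_biUnion]
      refine ⟨g, ?_, ?_⟩
      · rw [hE', Finset.mem_filter, hE, Set.Finite.mem_toFinset]
        exact ⟨hg, hgN⟩
      · rw [Finset.mem_biUnion]
        refine ⟨a, ?_, ?_⟩
        · rw [hR, Set.Finite.mem_toFinset]
          exact ha
        · rw [hS3, Finset.mem_filter]
          exact ⟨hk, h⟩
  have c1 : S1.card ≤ f y := by
    apply hfin S1 P.c
    intro k hk
    rw [hS1, Finset.mem_filter] at hk
    exact hk.2
  have c2 : (E.biUnion S2).card ≤ N * (M * f y) := by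
    refine (Finset.card_biUnion_le_card_mul _ _ (M * f y) ?_).trans
      (Nat.mul_le_mul_right _ hEc)
    intro e _
    obtain ⟨z, hz⟩ := hAVG p K A M b Q P.c (e + m) (S2 e) (by
      intro k hk
      rw [hS2, Finset.mem_filter] at hk
      exact hk.2)
    refine hz.trans (Nat.mul_le_mul_left _ ?_)
    refine le_trans ?_ (hy z)
    exact Set.ncard_le_ncard (fun k hk => hk.2) (Set.toFinite _)
  have c3 : (E'.biUnion fun g => (R g).biUnion (S3 g)).card ≤ N * (N * f y) := by
    refine (Finset.card_biUnion_le_card_mul _ _ (N * f y) ?_).trans ?_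
    · intro g hg
      rw [hE', Finset.mem_filter] at hg
      refine (Finset.card_biUnion_le_card_mul _ _ (f y) ?_).trans ?_
      · intro a ha
        rw [hR, Set.Finite.mem_toFinset] at ha
        obtain ⟨x, hx0, hxa, hxg⟩ := A.surj a g ha.1
        apply hfin (S3 g a) (P.c + x)
        intro k hk
        rw [hS3, Finset.mem_filter] at hk
        apply hk.2
        · intro h
          apply hx0
          have : P.c + x = P.c + 0 := by rw [h, add_zero]
          exact add_left_cancel this
        · rw [add_sub_cancel_left, hxa]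
        · rw [add_sub_cancel_left, hxg]
      · apply Nat.mul_le_mul_right
        rw [hR, ← Set.ncard_eq_toFinset_card _ (Set.toFinite (P.rs g))]
        exact hg.2
    · apply Nat.mul_le_mul_right
      exact (Finset.card_filter_le _ _).trans hEc
  have hfy : f y = {k : Fin b | y ∈ (Q k).set A}.ncard := rfl
  rw [← hfy]
  calc S.card ≤ (S1 ∪ (E.biUnion S2 ∪ E'.biUnion fun g => (R g).biUnion (S3 g))).card :=
        Finset.card_le_card hcov
    _ ≤ S1.card + ((E.biUnion S2).card + (E'.biUnion fun g => (R g).biUnion (S3 g)).card) :=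
        (Finset.card_union_le _ _).trans (Nat.add_le_add_left (Finset.card_union_le _ _) _)
    _ ≤ f y + (N * (M * f y) + N * (N * f y)) := by omega
    _ = (1 + N * M + N * N) * f y := by ring

end Pool.Agent.FHQ.H97
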