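import Pool.Agent.FHQ.StmtsP

/-! Squad FHQ, row NEA (helper97). -/

open scoped BigOperators

noncomputable section

namespace Pool.Agent.FHQ.H97

open Polynomial

variable {K : Type} [Field K]

theorem taylor_der (c : K) (w : K[X]) (s : ℕ) :
    derivative^[s] (taylor c w) = taylor c (derivative^[s] w) := by
  induction s generalizing w with
  | zero => rfl
  | succ s ih =>
    rw [Function.iterate_succ_apply, Function.iterate_succ_apply]
    have h : derivative (taylor c w) = taylor c (derivative w) := by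
      rw [taylor_apply, taylor_apply, derivative_comp]
      simp
    rw [h, ih]

theorem rts_finite (H : Set K[X]) (hH : H.Finite) : (Rts H).Finite := by
  classical
  have h : Rts H ⊆ ⋃ w ∈ H, ⋃ s ∈ Finset.range (w.natDegree + 1),
      {c | derivative^[s] w ≠ 0 ∧ (derivative^[s] w).eval c = 0} := by
    rintro c ⟨w, hw, s, hs, hc⟩
    simp only [Set.mem_iUnion]
    refine ⟨w, hw, s, ?_, hs, hc⟩
    rw [Finset.mem_range]
    by_contra hcon
    exact hs (iterate_derivative_eq_zero (by omega))
  refine Set.Finite.subset ?_ h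
  refine hH.biUnion ?_
  intro w _
  refine Set.Finite.biUnion (Finset.finite_toSet _) ?_
  intro s _
  by_cases h0 : derivative^[s] w = 0
  · refine Set.Finite.subset Set.finite_empty ?_
    rintro c ⟨h1, _⟩
    exact h1 h0
  · refine Set.Finite.subset (derivative^[s] w).roots.toFinset.finite_toSet ?_
    rintro c ⟨_, h2⟩
    rw [Finset.mem_coe, Multiset.mem_toFinset, mem_roots h0]
    exact h2

theorem nea (hNCA : NcaStmt) (hEXP : ExpStmt) (hBAL : BalStmt) : NeaStmt := by
  intro p _ K _ A D H hDp hH hdeg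
  -- a root near the point
  have key : ∀ (x c : K), x ∉ Rts H → c ∈ Rts H →
      (∀ c' ∈ Rts H, c' ≠ c → ¬ A.E (c' - c) (x - c)) → ∀ w : K[X], ∀ s : ℕ, ∀ t : K,
      (∃ w' ∈ H, ∃ s', derivative^[s] w = derivative^[s'] w') →
      derivative^[s] (taylor c w) ≠ 0 → (derivative^[s] (taylor c w)).eval t = 0 → t ≠ 0 →
      A.ac t = A.ac (x - c) → A.v t = A.v (x - c) → False := by
    rintro x c hx hc hnear w s t ⟨w', hw', s', hs'⟩ h1 h2 h3 h4 h5
    rw [taylor_der] at h1 h2
    rw [taylor_eval] at h2
    have hxc : x - c ≠ 0 := by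
      intro h
      rw [sub_eq_zero] at h
      rw [h] at hx
      exact hx hc
    have hne : derivative^[s] w ≠ 0 := by
      intro h
      rw [h, map_zero] at h1
      exact h1 rfl
    have hmem : t + c ∈ Rts H := by
      refine ⟨w', hw', s', ?_, ?_⟩
      · rw [← hs']; exact hne
      · rw [← hs']; exact h2
    refine hnear (t + c) hmem ?_ ?_
    · intro h
      apply h3
      have : t + c = 0 + c := by rw [h, zero_add]
      exact add_right_cancel this
    · rw [add_sub_cancel_right]
      exact ⟨h3, hxc, h4, h5⟩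
  have hac : ∀ (x c : K), x ∉ Rts H → c ∈ Rts H → A.ac (x - c) ≠ 0 ∧ x - c ≠ 0 := by
    intro x c hx hc
    have hxc : x - c ≠ 0 := by
      intro h
      rw [sub_eq_zero] at h
      rw [h] at hx
      exact hx hc
    exact ⟨fun h => hxc ((A.ac_zero _).mp h), hxc⟩
  refine ⟨?_, ?_, ?_⟩
  · intro x c hx hc hnear w hw hw0 hSp
    have hW0 : taylor c w ≠ 0 := by
      intro h
      apply hw0
      exact taylor_injective c (by rw [h, map_zero])
    obtain ⟨s, t, h1, h2, h3, h4, h5, _⟩ := hNCA p K A (taylor c w) D hW0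
      (by rw [natDegree_taylor]; exact hdeg w hw) hDp (A.ac (x - c)) (A.v (x - c))
      (hac x c hx hc).1 hSp
    exact key x c hx hc hnear w s t ⟨w, hw, s, rfl⟩ h1 h2 h3 h4 h5
  · intro x hx hne
    obtain ⟨c, hc, hmax⟩ := (rts_finite H hH).exists_maximalFor (fun c => A.v (x - c)) _ hne
    refine ⟨c, hc, ?_⟩
    intro c' hc' hcc' hE
    obtain ⟨e1, e2, e3, e4⟩ := hE
    have hE' : A.E (x - c) (c' - c) := ⟨e2, e1, e3.symm, e4.symm⟩
    rw [(hBAL p K A.toAcF0).1] at hE'
    obtain ⟨_, _, h | h⟩ := hE'
    · have : x = c' := sub_left_injective h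
      rw [this] at hx
      exact hx hc'
    · have e : x - c - (c' - c) = x - c' := by ring
      rw [e] at h
      have := hmax hc' h.le
      simp only at this
      omega
  · intro g hg hg0 hgd x c hgx hx hc hnear
    have hW0 : taylor c g ≠ 0 := by
      intro h
      apply hg0
      exact taylor_injective c (by rw [h, map_zero])
    have hWd : (taylor c g).natDegree < D := by rw [natDegree_taylor]; exact hgd
    have hSp : Sp (A.cac D (taylor c g)) (A.cv D (taylor c g)) (A.v (x - c)) (A.ac (x - c)) = 0 := by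
      by_contra hcon
      have := ((hEXP p K A.toAcF0 (taylor c g) D hW0 hWd (x - c) (hac x c hx hc).2).1 hcon).1
      apply this
      rw [taylor_eval, sub_add_cancel]
      exact hgx
    refine ⟨hSp, ?_⟩
    intro hSd
    obtain ⟨s, t, h1, h2, h3, h4, h5, h6⟩ := hNCA p K A (taylor c g) D hW0 hWd hDp
      (A.ac (x - c)) (A.v (x - c)) (hac x c hx hc).1 hSp
    have hs := h6 hSd
    refine key x c hx hc hnear g s t ⟨derivative g, hg, s - 1, ?_⟩ h1 h2 h3 h4 h5
    obtain ⟨s', rfl⟩ : ∃ s', s = s' + 1 := ⟨s - 1, by omega⟩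
    rw [Function.iterate_succ_apply, Nat.add_sub_cancel]

end Pool.Agent.FHQ.H97
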