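import Pool.Agent.FHQ.StmtsO

/-! Squad FHQ, row RSC (helper97). -/

open scoped BigOperators

noncomputable section

namespace Pool.Agent.FHQ.H97

theorem rsc (hRES : ResStmt) : RscStmt := by
  intro p _ K _ A x0 g
  obtain ⟨_, _, hneg, hinv, hring, hz, _, _⟩ := hRES p K A
  obtain ⟨T, hT0, hT1, hTg⟩ := A.surj 1 g one_ne_zero
  have hTi : T⁻¹ ≠ 0 := inv_ne_zero hT0
  have hacT : A.ac T⁻¹ = 1 := by rw [(hinv T hT0).1, hT1, inv_one]
  have hvT : A.v T⁻¹ = -g := by rw [(hinv T hT0).2, hTg]
  have hac : ∀ x, A.ac (x * T⁻¹) = A.ac x := by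
    intro x
    rw [A.ac_mul, hacT, mul_one]
  have hv : ∀ x, x ≠ 0 → A.v (x * T⁻¹) = A.v x - g := by
    intro x hx
    rw [A.v_mul x T⁻¹ hx hTi, hvT]
    ring
  have hres0 : A.res 0 = 0 := by
    unfold AcF0.res
    rw [if_neg]
    rintro ⟨h, _⟩
    exact h rfl
  have hInt : ∀ y ∈ A.ball x0 g, A.Int ((y - x0) * T⁻¹) := by
    intro y hy
    by_cases h : y - x0 = 0
    · left
      rw [h, zero_mul]
    · right
      rw [hv _ h]
      rcases hy with hy | hy
      · exact absurd (sub_eq_zero.mpr hy) h
      · omega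
  refine ⟨fun y => A.res ((y - x0) * T⁻¹), ?_, ?_⟩
  · intro r
    by_cases hr : r = 0
    · refine ⟨x0, Or.inl rfl, ?_⟩
      simp only [sub_self, zero_mul]
      rw [hres0, hr]
    · obtain ⟨x, hx0, hx1, hxg⟩ := A.surj r g hr
      refine ⟨x0 + x, Or.inr ?_, ?_⟩
      · rw [add_sub_cancel_left, hxg]
      · simp only [add_sub_cancel_left]
        unfold AcF0.res
        rw [if_pos, hac, hx1]
        refine ⟨mul_ne_zero hx0 hTi, ?_⟩
        rw [hv x hx0, hxg]
        ring
  · intro y hy z hz'
    set a := (y - x0) * T⁻¹ with ha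
    set b := (z - x0) * T⁻¹ with hb
    have hIa : A.Int a := hInt y hy
    have hIb : A.Int b := hInt z hz'
    have hInb : A.Int (-b) := by
      rcases hIb with h | h
      · left; rw [h, neg_zero]
      · right; rw [(hneg b).2]; exact h
    have e1 : A.res (a + -b) = A.res a + A.res (-b) := (hring a (-b) hIa hInb).2.1
    have hIab : A.Int (a + -b) := (hring a (-b) hIa hInb).1
    have e2 : A.res (b + -b) = A.res b + A.res (-b) := (hring b (-b) hIb hInb).2.1
    rw [add_neg_cancel, hres0] at e2
    have e3 : A.res (a + -b) = A.res a - A.res b := by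
      rw [e1]
      linear_combination -e2
    have e4 : a + -b = (y - z) * T⁻¹ := by
      rw [ha, hb]
      ring
    rw [e4] at e3 hIab
    have h1 : A.res a = A.res b ↔ y = z ∨ g < A.v (y - z) := by
      rw [← sub_eq_zero, ← e3, hz _ hIab]
      constructor
      · rintro (h | h)
        · left
          rcases mul_eq_zero.mp h with h | h
          · exact sub_eq_zero.mp h
          · exact absurd h hTi
        · by_cases hyz : y = z
          · exact Or.inl hyz
          · right
            rw [hv _ (sub_ne_zero.mpr hyz)] at h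
            omega
      · rintro (h | h)
        · left
          rw [h, sub_self, zero_mul]
        · by_cases hyz : y = z
          · left
            rw [hyz, sub_self, zero_mul]
          · right
            rw [hv _ (sub_ne_zero.mpr hyz)]
            omega
    refine ⟨h1, ?_⟩
    intro hne
    have h2 : ¬ (y = z ∨ g < A.v (y - z)) := fun h => hne (h1.mpr h)
    push Not at h2
    obtain ⟨h3, h4⟩ := h2
    have h5 : (y - z) * T⁻¹ ≠ 0 := mul_ne_zero (sub_ne_zero.mpr h3) hTi
    have h6 : A.v (y - z) = g := by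
      rcases hIab with h | h
      · exact absurd h h5
      · rw [hv _ (sub_ne_zero.mpr h3)] at h
        omega
    refine ⟨h3, h6, ?_⟩
    change A.ac (y - z) = A.res a - A.res b
    rw [← e3]
    unfold AcF0.res
    rw [if_pos, hac]
    refine ⟨h5, ?_⟩
    rw [hv _ (sub_ne_zero.mpr h3), h6]
    ring

end Pool.Agent.FHQ.H97
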